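import Mathlib

namespace Pool.Agent.Results.MP_066924_al.LocDer

variable {F V : Type*} [Field F] [AddCommGroup V] [Module F V]

def IsDer (m : V →ₗ[F] V →ₗ[F] V) (D : V →ₗ[F] V) : Prop :=
  ∀ x y, D (m x y) = m (D x) y + m x (D y)

def IsLocDer (m : V →ₗ[F] V →ₗ[F] V) (L : V →ₗ[F] V) : Prop :=
  ∀ x, ∃ D : V →ₗ[F] V, IsDer m D ∧ L x = D x

open NormedSpace

lemma core {K E : Type*} [RCLike K] [NormedAddCommGroup E] [NormedSpace K E] [FiniteDimensional K E]
    (m : E →ₗ[K] E →ₗ[K] E) (L D : E →ₗ[K] E) (hL : IsLocDer m L) (hD : IsDer m D) (x : E) :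
    ∃ G : E →ₗ[K] E, IsDer m G ∧ L (D x) - D (L x) = G x := by
  haveI : CompleteSpace E := FiniteDimensional.complete K E
  let A : E →L[K] E := LinearMap.toContinuousLinearMap D
  let L' : E →L[K] E := LinearMap.toContinuousLinearMap L
  let M : E →L[K] E →L[K] E := LinearMap.toContinuousLinearMap
    ((LinearMap.toContinuousLinearMap : (E →ₗ[K] E) ≃ₗ[K] E →L[K] E).toLinearMap ∘ₗ m)
  have hM : ∀ a b, M a b = m a b := fun _ _ => rfl
  have hA : ∀ a, A a = D a := fun _ => rfl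
  let U : K → E →L[K] E := fun t => exp (t • A)
  let W : K → E →L[K] E := fun t => exp (t • (-A))
  have hU : ∀ t, HasDerivAt U (A * U t) t := fun t => hasDerivAt_exp_smul_const' A t
  have hW : ∀ t, HasDerivAt W (W t * (-A)) t := fun t => hasDerivAt_exp_smul_const (-A) t
  have U0 : U 0 = 1 := by simp [U]
  have W0 : W 0 = 1 := by simp [W]
  have WU : ∀ t, W t * U t = 1 := by
    intro t
    have : Commute (t • (-A)) (t • A) := ((Commute.refl A).neg_left.smul_left t).smul_right t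
    simp only [W, U]
    rw [← exp_add_of_commute_of_mem_ball (𝕂 := K) this
      ((expSeries_radius_eq_top K (E →L[K] E)).symm ▸ edist_lt_top _ _)
      ((expSeries_radius_eq_top K (E →L[K] E)).symm ▸ edist_lt_top _ _)]; simp
  have UW : ∀ t, U t * W t = 1 := by
    intro t
    have : Commute (t • A) (t • (-A)) := ((Commute.refl A).neg_right.smul_left t).smul_right t
    simp only [W, U]
    rw [← exp_add_of_commute_of_mem_ball (𝕂 := K) this
      ((expSeries_radius_eq_top K (E →L[K] E)).symm ▸ edist_lt_top _ _)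
      ((expSeries_radius_eq_top K (E →L[K] E)).symm ▸ edist_lt_top _ _)]; simp
  have hUa : ∀ a t, HasDerivAt (fun t => U t a) (A (U t a)) t := by
    intro a t
    simpa using (hU t).clm_apply (hasDerivAt_const t a)
  have aut : ∀ t a b, W t (m (U t a) (U t b)) = m a b := by
    intro t a b
    have hd : ∀ t, HasDerivAt (fun t => W t (M (U t a) (U t b))) 0 t := by
      intro t
      have h1 : HasDerivAt (fun t => M (U t a)) (M (A (U t a))) t :=
        M.hasFDerivAt.comp_hasDerivAt t (hUa a t)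
      have h2 := (hW t).clm_apply (h1.clm_apply (hUa b t))
      convert h2 using 1
      simp only [hM, hA, ContinuousLinearMap.mul_apply, ContinuousLinearMap.neg_apply]
      rw [hD, map_neg]; simp
    have := is_const_of_deriv_eq_zero (fun t => (hd t).differentiableAt) (fun t => (hd t).deriv) t 0
    simpa [hM, U0, W0] using this
  let S : Submodule K E :=
    { carrier := {y | ∃ G : E →ₗ[K] E, IsDer m G ∧ y = G x}
      add_mem' := by
        rintro _ _ ⟨G, hG, rfl⟩ ⟨H, hH, rfl⟩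
        refine ⟨G + H, fun a b => ?_, rfl⟩
        simp only [LinearMap.add_apply, hG a b, hH a b, map_add]; abel
      zero_mem' := ⟨0, fun a b => by simp, rfl⟩
      smul_mem' := by
        rintro c _ ⟨G, hG, rfl⟩
        refine ⟨c • G, fun a b => ?_, rfl⟩
        simp [hG a b] }
  have hS : ∀ t, W t (L' (U t x)) ∈ S := by
    intro t
    obtain ⟨G, hG, h⟩ := hL (U t x)
    refine ⟨(W t).toLinearMap ∘ₗ G ∘ₗ (U t).toLinearMap, fun a b => ?_, ?_⟩
    · have e1 : ∀ c, U t (W t c) = c := fun c => by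
        rw [← ContinuousLinearMap.mul_apply, UW]; rfl
      have e2 : U t (m a b) = m (U t a) (U t b) := by rw [← aut t a b, e1]
      simp only [LinearMap.comp_apply, ContinuousLinearMap.coe_coe]
      rw [e2, hG, map_add, ← aut t (W t (G (U t a))) b, ← aut t a (W t (G (U t b))), e1, e1]
    · simp only [LinearMap.comp_apply, ContinuousLinearMap.coe_coe]
      rw [← h]; rfl
  have hd : HasDerivAt (fun t => W t (L' (U t x))) (L (D x) - D (L x)) 0 := by
    have h1 : HasDerivAt (fun t => L' (U t x)) (L' (A (U 0 x))) 0 :=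
      L'.hasFDerivAt.comp_hasDerivAt (0 : K) (hUa x 0)
    have h2 := (hW 0).clm_apply h1
    convert h2 using 1
    simp [U0, W0, L', hA, sub_eq_neg_add]
  have hc : IsClosed (S : Set E) := S.closed_of_finiteDimensional
  have := hc.mem_of_tendsto (hasDerivAt_iff_tendsto_slope.1 hd)
    (Filter.Eventually.of_forall fun t => by
      rw [slope_def_module]
      exact S.smul_mem _ (S.sub_mem (hS t) (hS 0)))
  exact this

lemma core2 {K E : Type*} [RCLike K] [NormedAddCommGroup E] [NormedSpace K E] [FiniteDimensional K E]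
    (m : E →ₗ[K] E →ₗ[K] E) (L₁ L₂ : E →ₗ[K] E) (h₁ : IsLocDer m L₁) (h₂ : IsLocDer m L₂) :
    IsLocDer m (L₁ ∘ₗ L₂ - L₂ ∘ₗ L₁) := by
  intro x
  obtain ⟨D₁, hD₁, e₁⟩ := h₁ x
  obtain ⟨D₂, hD₂, e₂⟩ := h₂ x
  obtain ⟨G₁, hG₁, f₁⟩ := core m L₁ D₂ h₁ hD₂ x
  obtain ⟨G₂, hG₂, f₂⟩ := core m L₂ D₁ h₂ hD₁ x
  refine ⟨G₁ - G₂ + (D₂ ∘ₗ D₁ - D₁ ∘ₗ D₂), fun a b => ?_, ?_⟩
  · simp only [LinearMap.add_apply, LinearMap.sub_apply, LinearMap.comp_apply, hG₁ a b, hG₂ a b,
      hD₁ a b, hD₂ a b, map_add, map_sub, hD₁ (D₂ a) b, hD₁ a (D₂ b), hD₂ (D₁ a) b, hD₂ a (D₁ b)]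
    abel
  · simp only [LinearMap.add_apply, LinearMap.sub_apply, LinearMap.comp_apply, ← f₁, ← f₂, e₁, e₂]
    abel

lemma main {K E : Type} [RCLike K] [AddCommGroup E] [Module K E] [FiniteDimensional K E]
    (m : E →ₗ[K] E →ₗ[K] E) (L₁ L₂ : E →ₗ[K] E) (h₁ : IsLocDer m L₁) (h₂ : IsLocDer m L₂) :
    IsLocDer m (L₁ ∘ₗ L₂ - L₂ ∘ₗ L₁) := by
  let e := (Module.finBasis K E).equivFun
  letI : NormedAddCommGroup E := NormedAddCommGroup.induced E _ e.toLinearMap e.injective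
  letI : NormedSpace K E := NormedSpace.induced K E _ e.toLinearMap
  exact core2 m L₁ L₂ h₁ h₂

theorem result :
    (∀ (E : Type) [AddCommGroup E] [Module ℝ E] [FiniteDimensional ℝ E] (m : E →ₗ[ℝ] E →ₗ[ℝ] E)
      (L₁ L₂ : E →ₗ[ℝ] E), IsLocDer m L₁ → IsLocDer m L₂ → IsLocDer m (L₁ ∘ₗ L₂ - L₂ ∘ₗ L₁)) ∧
    (∀ (E : Type) [AddCommGroup E] [Module ℂ E] [FiniteDimensional ℂ E] (m : E →ₗ[ℂ] E →ₗ[ℂ] E)
      (L₁ L₂ : E →ₗ[ℂ] E), IsLocDer m L₁ → IsLocDer m L₂ → IsLocDer m (L₁ ∘ₗ L₂ - L₂ ∘ₗ L₁)) :=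
  ⟨fun _ _ _ _ m L₁ L₂ => main m L₁ L₂, fun _ _ _ _ m L₁ L₂ => main m L₁ L₂⟩

end Pool.Agent.Results.MP_066924_al.LocDer
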